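import Pool.Agent.W670.ML.Defs

/-! Part AB of project ML (for helper670). -/

set_option autoImplicit false

namespace Pool.Agent.W343.ML

open NumberField Pool.Agent.W670.ML

/-- The map on intermediate fields induced by an isomorphism is injective. -/
theorem map_injective {K Ω Ω' : Type} [Field K] [Field Ω] [Field Ω'] [Algebra K Ω] [Algebra K Ω']
    (ι : Ω ≃ₐ[K] Ω') :
    Function.Injective (fun M : IntermediateField K Ω => M.map ι.toAlgHom) := by
  intro M M' h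
  ext x
  have h1 : ∀ (L : IntermediateField K Ω), x ∈ L ↔ ι x ∈ L.map ι.toAlgHom := by
    intro L
    constructor
    · intro hx
      exact ⟨x, hx, rfl⟩
    · rintro ⟨y, hy, hxy⟩
      have : y = x := ι.injective hxy
      rw [← this]
      exact hy
  rw [h1 M, h1 M']
  have h' : M.map ι.toAlgHom = M'.map ι.toAlgHom := h
  rw [h']

/-- The ring isomorphism between a field and its image. -/
def mapEquiv {K Ω Ω' : Type} [Field K] [Field Ω] [Field Ω'] [Algebra K Ω] [Algebra K Ω']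
    (ι : Ω ≃ₐ[K] Ω') (M : IntermediateField K Ω) : ↥M ≃+* ↥(M.map ι.toAlgHom) :=
  (IntermediateField.intermediateFieldMap ι M).toRingEquiv

/-- The fields inside a general big field. -/
def flds (K Ω : Type) [Field K] [NumberField K] [Field Ω] [Algebra K Ω] (n : ℕ)
    (G : Subgroup (Equiv.Perm (Fin n))) (X : ℝ) : Set (IntermediateField K Ω) :=
  {L | HasGroup K Ω n G L ∧ ∃ _ : NumberField L, (relDisc K L : ℝ) ≤ X}

theorem fields_eq (K : Type) [Field K] [NumberField K] (n : ℕ)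
    (G : Subgroup (Equiv.Perm (Fin n))) (X : ℝ) :
    fields K n G X = flds K (AlgebraicClosure K) n G X := rfl

theorem mem_bigInd {N m : ℕ} {H : Subgroup (Equiv.Perm (Fin N))} (h1 : Trans H)
    (h2 : ∀ h ∈ H, h ≠ 1 → m ≤ ind h) : H ∈ bigInd N m := by
  classical
  unfold bigInd
  exact Finset.mem_filter.2 ⟨Finset.mem_univ _, h1, h2⟩

theorem ab_aux (h1 : S_TR) (h2 : S_EX) (h3 : S_HE) (h4 : S_DI) (N m : ℕ) (Ω : Type) [Field Ω]
    [iΩ : Algebra ℚ Ω] [IsAlgClosure ℚ Ω] (Ω' : Type) [Field Ω'] [iΩ' : Algebra ℚ Ω']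
    (ι : Ω ≃ₐ[ℚ] Ω') (hN : 0 < N) (S : Set (IntermediateField ℚ Ω)) (Y : ℝ)
    (hS : ∀ M ∈ S, Module.finrank ℚ M = N ∧ (∃ _ : NumberField M, ((discr M).natAbs : ℝ) ≤ Y) ∧
      ∀ H : Subgroup (Equiv.Perm (Fin N)), HasGroup ℚ Ω N H M → ∀ h ∈ H, h ≠ 1 → m ≤ ind h) :
    S.Finite ∧ S.ncard ≤ ∑ H ∈ bigInd N m, (flds ℚ Ω' N H Y).ncard := by
  have hdi := h4.2.1
  have hfin : S.Finite := by
    refine (h3 Ω Y).subset ?_
    intro M hM
    exact (hS M hM).2.1
  refine ⟨hfin, ?_⟩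
  have hfinj : Function.Injective (fun M : IntermediateField ℚ Ω => M.map ι.toAlgHom) :=
    map_injective ι
  set f : IntermediateField ℚ Ω → IntermediateField ℚ Ω' := fun M => M.map ι.toAlgHom with hf
  have hsub : f '' S ⊆ ⋃ H ∈ bigInd N m, flds ℚ Ω' N H Y := by
    rintro _ ⟨M, hM, rfl⟩
    obtain ⟨hrk, ⟨hNF, hdisc⟩, hind⟩ := hS M hM
    obtain ⟨H, hHT, hHG⟩ := h2 Ω N M hN hrk
    refine Set.mem_iUnion₂.2 ⟨H, mem_bigInd hHT (hind H hHG), ?_⟩
    have e : ↥M ≃+* ↥(f M) := mapEquiv ι M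
    have hNF' : NumberField ↥(f M) := NumberField.of_ringEquiv _ _ e
    refine ⟨h1 ℚ Ω Ω' ι N H M hHG, hNF', ?_⟩
    have hd := @hdi ↥(f M) _ hNF' (f M).algebra'
    have he := NumberField.discr_eq_discr_of_ringEquiv _ e
    rw [he, hd] at hdisc
    exact hdisc
  have hfin2 : (⋃ H ∈ bigInd N m, flds ℚ Ω' N H Y).Finite := by
    refine Set.Finite.biUnion (Finset.finite_toSet _) ?_
    intro H _
    refine (h3 Ω' Y).subset ?_
    rintro M ⟨_, hNF, hd⟩
    refine ⟨hNF, ?_⟩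
    have hd' := @hdi ↥M _ hNF M.algebra'
    rw [hd']
    exact hd
  calc S.ncard = (f '' S).ncard := (Set.ncard_image_of_injective S hfinj).symm
    _ ≤ (⋃ H ∈ bigInd N m, flds ℚ Ω' N H Y).ncard := Set.ncard_le_ncard hsub hfin2
    _ ≤ _ := (bigInd N m).set_ncard_biUnion_le _

theorem isAlgClosure_aux (K : Type) [Field K] : IsAlgClosure K (AlgebraicClosure K) :=
  inferInstance

/-- An isomorphism between two algebraic closures. -/
noncomputable def isoClosure (K Ω : Type) [Field K] [Field Ω] [Algebra K Ω] [IsAlgClosure K Ω] :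
    Ω ≃ₐ[K] AlgebraicClosure K := IsAlgClosure.equiv K Ω (AlgebraicClosure K)

theorem ab (h1 : S_TR) (h2 : S_EX) (h3 : S_HE) (h4 : S_DI) : S_AB := by
  intro N m Ω _ _ _ hN S Y hS
  exact ab_aux h1 h2 h3 h4 N m Ω (AlgebraicClosure ℚ) (iΩ' := AlgebraicClosure.instAlgebra ℚ)
    (isoClosure ℚ Ω) hN S Y hS

end Pool.Agent.W343.ML
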